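import Pool.Agent.TH387.EI.Defs
import Pool.Agent.H770R2.Kad.Kap

/-!
# An atom near a vector (Zorn)
-/

set_option autoImplicit false
open scoped ComplexOrder InnerProductSpace
noncomputable section

namespace Pool.Agent.TH748.EI4b3

open Pool.Agent.TH387.EI Filter

universe u

variable {H : Type u} [NormedAddCommGroup H] [InnerProductSpace ℂ H] [CompleteSpace H]

/-- The family of closed subspaces (the kernels of the projections). -/
def Fam (S : Set (H →L[ℂ] H)) (q : H →L[ℂ] H) (ξ : H) : Set (Submodule ℂ H) :=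
  {U | IsClosed (U : Set H) ∧ (∀ y ∈ S, ∀ v ∈ U, y v ∈ U) ∧ (∀ v, q v = 0 → v ∈ U) ∧
    ∀ _ : U.HasOrthogonalProjection, 1 / 2 ≤ ‖ξ - U.starProjection ξ‖ ^ 2}

theorem chain_ub (S : Set (H →L[ℂ] H)) (q : H →L[ℂ] H) (ξ : H) (c : Set (Submodule ℂ H))
    (hc : c ⊆ Fam S q ξ) (hch : IsChain (· ≤ ·) c) (y : Submodule ℂ H) (hy : y ∈ c) :
    ∃ ub ∈ Fam S q ξ, ∀ z ∈ c, z ≤ ub := by
  have hcl : ∀ i : c, IsClosed ((i : Submodule ℂ H) : Set H) := fun i => (hc i.2).1
  haveI : ∀ i : c, CompleteSpace (i : Submodule ℂ H) := fun i => (hcl i).completeSpace_coe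
  haveI : ∀ i : c, (i : Submodule ℂ H).HasOrthogonalProjection := fun i => inferInstance
  set U : Submodule ℂ H := (⨆ i : c, (i : Submodule ℂ H)).topologicalClosure with hU
  have hUc : IsClosed (U : Set H) := Submodule.isClosed_topologicalClosure _
  haveI : CompleteSpace U := hUc.completeSpace_coe
  haveI : U.HasOrthogonalProjection := inferInstance
  have hdir : Directed (· ≤ ·) (fun i : c => (i : Submodule ℂ H)) :=
    hch.directed
  haveI : Nonempty c := ⟨⟨y, hy⟩⟩
  have hle : ∀ i : c, (i : Submodule ℂ H) ≤ U := fun i =>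
    (le_iSup (fun i : c => (i : Submodule ℂ H)) i).trans (Submodule.le_topologicalClosure _)
  refine ⟨U, ⟨hUc, ?_, ?_, ?_⟩, fun z hz => hle ⟨z, hz⟩⟩
  · intro T hT v hv
    have h1 : Set.MapsTo T ((⨆ i : c, (i : Submodule ℂ H) : Submodule ℂ H) : Set H)
        ((⨆ i : c, (i : Submodule ℂ H) : Submodule ℂ H) : Set H) := by
      intro w hw
      rw [SetLike.mem_coe, Submodule.mem_iSup_of_directed _ hdir] at hw ⊢
      obtain ⟨i, hi⟩ := hw
      exact ⟨i, (hc i.2).2.1 T hT w hi⟩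
    exact h1.closure T.continuous hv
  · intro v hv
    exact hle ⟨y, hy⟩ ((hc hy).2.2.1 v hv)
  · intro _
    haveI : IsDirectedOrder c := ⟨fun a b => by
      obtain ⟨k, h1, h2⟩ := hdir a b
      exact ⟨k, h1, h2⟩⟩
    have ht := Submodule.starProjection_tendsto_closure_iSup (fun i : c => (i : Submodule ℂ H))
      (fun a b hab => hab) ξ
    have ht2 : Tendsto (fun i : c => ‖ξ - (i : Submodule ℂ H).starProjection ξ‖ ^ 2) atTop
        (nhds (‖ξ - U.starProjection ξ‖ ^ 2)) := ((ht.const_sub ξ).norm).pow 2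
    exact ge_of_tendsto' ht2 fun i => (hc i.2).2.2.2 inferInstance

theorem sp_apply (e : H →L[ℂ] H) (he : IsStarProjection e) (v : H) : e (e v) = e v := by
  have := he.isIdempotentElem
  exact congrArg (fun T : H →L[ℂ] H => T v) this

theorem sp_inner (e : H →L[ℂ] H) (he : IsStarProjection e) (v : H) :
    ((‖e v‖ ^ 2 : ℝ) : ℂ) = ⟪v, e v⟫_ℂ := by
  have h1 : ⟪e v, e v⟫_ℂ = ⟪v, e v⟫_ℂ := by
    rw [← ContinuousLinearMap.adjoint_inner_right, ← ContinuousLinearMap.star_eq_adjoint,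
      he.isSelfAdjoint.star_eq, sp_apply e he]
  rw [← h1, inner_self_eq_norm_sq_to_K]
  norm_cast

theorem comm_of_mul (e f : H →L[ℂ] H) (he : IsStarProjection e) (hf : IsStarProjection f)
    (h : e * f = f) : f * e = f := by
  have h1 := congrArg star h
  rwa [star_mul, he.isSelfAdjoint.star_eq, hf.isSelfAdjoint.star_eq] at h1

/-- The kernel of a projection in the family. -/
theorem ker_mem (S : Set (H →L[ℂ] H)) (q e : H →L[ℂ] H) (ξ : H) (he : IsStarProjection e)
    (hq : IsStarProjection q)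
    (heS : Cm S e) (hqe : q * e = e) (hξ : 1 / 2 ≤ ‖e ξ‖ ^ 2) :
    LinearMap.ker (e : H →ₗ[ℂ] H) ∈ Fam S q ξ := by
  have hmem : ∀ v, v ∈ LinearMap.ker (e : H →ₗ[ℂ] H) ↔ e v = 0 := fun v => Iff.rfl
  refine ⟨?_, ?_, ?_, ?_⟩
  · exact ContinuousLinearMap.isClosed_ker e
  · intro y hy v hv
    rw [hmem] at hv ⊢
    have h1 := congrArg (fun T : H →L[ℂ] H => T v) (heS y hy)
    change y (e v) = e (y v) at h1
    rw [← h1, hv, map_zero]
  · intro v hv
    rw [hmem]
    have h1 := comm_of_mul q e hq he hqe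
    have h2 := congrArg (fun T : H →L[ℂ] H => T v) h1
    change e (q v) = e v at h2
    rw [← h2, hv, map_zero]
  · intro _
    have h1 : (LinearMap.ker (e : H →ₗ[ℂ] H)).starProjection ξ = ξ - e ξ := by
      refine Submodule.eq_starProjection_of_mem_of_inner_eq_zero ?_ ?_
      · rw [hmem, map_sub, sp_apply e he, sub_self]
      · intro w hw
        rw [hmem] at hw
        rw [sub_sub_cancel]
        rw [← ContinuousLinearMap.adjoint_inner_right, ← ContinuousLinearMap.star_eq_adjoint,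
          he.isSelfAdjoint.star_eq, hw, inner_zero_right]
    rw [h1, sub_sub_cancel]
    exact hξ

/-- If the kernels agree the projections agree. -/
theorem eq_of_ker (e f : H →L[ℂ] H) (he : IsStarProjection e) (hf : IsStarProjection f)
    (hef : e * f = f)
    (h : LinearMap.ker (f : H →ₗ[ℂ] H) ≤ LinearMap.ker (e : H →ₗ[ℂ] H)) : f = e := by
  have h1 : e * f = e := by
    ext v
    have h2 : v - f v ∈ LinearMap.ker (f : H →ₗ[ℂ] H) := by
      change f (v - f v) = 0
      rw [map_sub, sp_apply f hf, sub_self]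
    have h3 : e (v - f v) = 0 := h h2
    rw [map_sub, sub_eq_zero] at h3
    exact h3.symm
  rw [← hef, h1]

end Pool.Agent.TH748.EI4b3

namespace Pool.Agent.TH387.EI
universe u

open Pool.Agent.TH748.EI4b3

variable {H : Type u} [NormedAddCommGroup H] [InnerProductSpace ℂ H] [CompleteSpace H]

theorem exists_atom (S : Set (H →L[ℂ] H)) (hS : ∀ y ∈ S, star y ∈ S) (q : H →L[ℂ] H)
    (hq : IsStarProjection q) (hqS : Cm S q) (ξ : H) (hξ : ‖ξ‖ ≤ 1) (r : ℝ) (hr : 0 < r)
    (hr1 : r ≤ 1 / 100) (hqξ : 1 / 2 ≤ ‖q ξ‖ ^ 2)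
    (h : ∀ e : H →L[ℂ] H, IsStarProjection e → Cm S e → q * e = e →
      ‖e ξ‖ ^ 2 * (1 - ‖e ξ‖ ^ 2) ≤ 2 * r) :
    ∃ e : H →L[ℂ] H, IsStarProjection e ∧ e ≠ 0 ∧ Cm S e ∧ 1 - 4 * r ≤ ‖e ξ‖ ^ 2 ∧
      ∀ f : H →L[ℂ] H, IsStarProjection f → Cm S f → e * f = f → f = 0 ∨ f = e := by
  obtain ⟨U, -, hU, hmax⟩ := zorn_le_nonempty₀ (Fam S q ξ) (chain_ub S q ξ)
    (LinearMap.ker (q : H →ₗ[ℂ] H)) (ker_mem S q q ξ hq hq hqS hq.isIdempotentElem hqξ)
  haveI : CompleteSpace U := hU.1.completeSpace_coe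
  set e : H →L[ℂ] H := 1 - U.starProjection with he_def
  have he : IsStarProjection e := isStarProjection_starProjection.one_sub
  have hea : ∀ v, e v = v - U.starProjection v := fun v => rfl
  have hkerU : LinearMap.ker (e : H →ₗ[ℂ] H) = U := by
    ext v
    change e v = 0 ↔ _
    rw [hea, sub_eq_zero, eq_comm, Submodule.starProjection_eq_self_iff]
  have heS : Cm S e := by
    intro y hy
    ext v
    change y (e v) = e (y v)
    rw [hea, hea, map_sub, H770R2.Kad.proj_comm U y (hU.2.1 y hy) (hU.2.1 _ (hS y hy))]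
  have hqe : q * e = e := by
    have h1 : e * q = e := by
      ext v
      change e (q v) = e v
      have h2 : v - q v ∈ U := hU.2.2.1 _ (by rw [map_sub, sp_apply q hq, sub_self])
      rw [← hkerU] at h2
      have h3 : e (v - q v) = 0 := h2
      rw [map_sub, sub_eq_zero] at h3
      exact h3.symm
    have h2 := congrArg star h1
    rwa [star_mul, he.isSelfAdjoint.star_eq, hq.isSelfAdjoint.star_eq] at h2
  have heξ : 1 / 2 ≤ ‖e ξ‖ ^ 2 := hU.2.2.2 inferInstance
  have heξ1 : ‖e ξ‖ ^ 2 ≤ 1 := by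
    have h1 : ‖e ξ‖ ≤ ‖ξ‖ := by
      have h2 := sp_inner e he ξ
      have h3 : ‖(((‖e ξ‖ ^ 2 : ℝ)) : ℂ)‖ ≤ ‖ξ‖ * ‖e ξ‖ := by
        rw [h2]
        exact norm_inner_le_norm _ _
      rw [Complex.norm_real, Real.norm_of_nonneg (by positivity), sq] at h3
      by_contra hcon
      push Not at hcon
      have h4 : 0 < ‖e ξ‖ := lt_of_le_of_lt (norm_nonneg _) hcon
      nlinarith
    nlinarith [norm_nonneg (e ξ)]
  have ht : 1 - 4 * r ≤ ‖e ξ‖ ^ 2 := by
    have h1 := h e he heS hqe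
    nlinarith
  refine ⟨e, he, ?_, heS, ht, ?_⟩
  · intro h0
    rw [h0] at heξ
    norm_num at heξ
  · -- every projection below `e` with a large component is `e`
    have key : ∀ f : H →L[ℂ] H, IsStarProjection f → Cm S f → e * f = f →
        1 / 2 ≤ ‖f ξ‖ ^ 2 → f = e := by
      intro f hf hfS hef hfξ
      have hqf : q * f = f := by
        rw [← hef, ← mul_assoc, hqe]
      have h1 := ker_mem S q f ξ hf hq hfS hqf hfξ
      have hfe := comm_of_mul e f he hf hef
      have h2 : U ≤ LinearMap.ker (f : H →ₗ[ℂ] H) := by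
        intro v hv
        rw [← hkerU] at hv
        have hv' : e v = 0 := hv
        change f v = 0
        have h3 := congrArg (fun T : H →L[ℂ] H => T v) hfe
        change f (e v) = f v at h3
        rw [← h3, hv', map_zero]
      have h3 := hmax h1 h2
      rw [← hkerU] at h3
      exact eq_of_ker e f he hf hef h3
    intro f hf hfS hef
    by_cases hfξ : 1 / 2 ≤ ‖f ξ‖ ^ 2
    · exact Or.inr (key f hf hfS hef hfξ)
    · left
      push Not at hfξ
      have hqf : q * f = f := by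
        rw [← hef, ← mul_assoc, hqe]
      have h1 := h f hf hfS hqf
      have h2 : ‖f ξ‖ ^ 2 ≤ 4 * r := by
        nlinarith [sq_nonneg (‖f ξ‖)]
      have hfe := comm_of_mul e f he hf hef
      have hg : IsStarProjection (e - f) := hf.sub_of_mul_eq_right he hef
      have hgS : Cm S (e - f) := by
        intro y hy
        rw [mul_sub, sub_mul, heS y hy, hfS y hy]
      have heg : e * (e - f) = e - f := by
        rw [mul_sub, hef, he.isIdempotentElem.eq]
      have hgξ : ((‖(e - f) ξ‖ ^ 2 : ℝ) : ℂ) = ((‖e ξ‖ ^ 2 - ‖f ξ‖ ^ 2 : ℝ) : ℂ) := by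
        rw [sp_inner (e - f) hg ξ]
        push_cast
        have h3 := sp_inner e he ξ
        have h4 := sp_inner f hf ξ
        push_cast at h3 h4
        rw [h3, h4]
        change ⟪ξ, e ξ - f ξ⟫_ℂ = _
        rw [inner_sub_right]
      have hgξ' : ‖(e - f) ξ‖ ^ 2 = ‖e ξ‖ ^ 2 - ‖f ξ‖ ^ 2 := by exact_mod_cast hgξ
      have h5 := key (e - f) hg hgS heg (by rw [hgξ']; linarith)
      have h6 : e - f = e - 0 := by rw [h5, sub_zero]
      exact sub_right_injective h6

end Pool.Agent.TH387.EI
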